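import Pool.Agent.W905.TM.Comb

/-!
# Project TM: the choice of one element of each group (S_SEL)
-/

namespace Pool.Agent.W906.TM

open Finset Pool.Agent.W905.TM

lemma pow_card_filter {r : ℕ} (p : Fin r → Prop) [DecidablePred p] :
    (2 : ℝ) ^ (univ.filter p).card = ∏ l, (if p l then (2 : ℝ) else 1) := by
  rw [Finset.prod_ite]
  simp

/-- the exponential moment of the number of hits -/
lemma moment (r w : ℕ) (hw : 0 < w) (S : Finset (Fin r × Fin w)) (hS : S.card ≤ w) :
    ∑ f : Fin r → Fin w, (2 : ℝ) ^ (univ.filter fun l => (l, f l) ∈ S).card ≤ 3 * (w : ℝ) ^ r := by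
  have hw' : (0 : ℝ) < w := by exact_mod_cast hw
  have h1 : ∑ f : Fin r → Fin w, (2 : ℝ) ^ (univ.filter fun l => (l, f l) ∈ S).card
      = ∏ l : Fin r, ∑ x : Fin w, (if (l, x) ∈ S then (2 : ℝ) else 1) := by
    rw [Finset.prod_univ_sum, Fintype.piFinset_univ]
    refine Finset.sum_congr rfl (fun f _ => ?_)
    exact pow_card_filter (fun l => (l, f l) ∈ S)
  have h2 : ∀ l : Fin r, ∑ x : Fin w, (if (l, x) ∈ S then (2 : ℝ) else 1)
      = w + ∑ x : Fin w, (if (l, x) ∈ S then (1 : ℝ) else 0) := by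
    intro l
    have : ∀ x : Fin w, (if (l, x) ∈ S then (2 : ℝ) else 1)
        = 1 + (if (l, x) ∈ S then (1 : ℝ) else 0) := by
      intro x
      split_ifs <;> norm_num
    simp only [this, Finset.sum_add_distrib, Finset.sum_const, Finset.card_univ, Fintype.card_fin,
      nsmul_eq_mul, mul_one]
  have h3 : ∀ l : Fin r, (w : ℝ) + ∑ x : Fin w, (if (l, x) ∈ S then (1 : ℝ) else 0)
      ≤ w * Real.exp ((∑ x : Fin w, (if (l, x) ∈ S then (1 : ℝ) else 0)) / w) := by
    intro l
    have := Real.add_one_le_exp ((∑ x : Fin w, (if (l, x) ∈ S then (1 : ℝ) else 0)) / w)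
    have h4 := mul_le_mul_of_nonneg_left this hw'.le
    rw [mul_add, mul_div_cancel₀ _ hw'.ne'] at h4
    linarith
  have hcard : ∑ l : Fin r, ∑ x : Fin w, (if (l, x) ∈ S then (1 : ℝ) else 0) = S.card := by
    rw [← Fintype.sum_prod_type (fun p : Fin r × Fin w => if p ∈ S then (1 : ℝ) else 0)]
    simp
  rw [h1]
  calc ∏ l : Fin r, ∑ x : Fin w, (if (l, x) ∈ S then (2 : ℝ) else 1)
      = ∏ l : Fin r, ((w : ℝ) + ∑ x : Fin w, (if (l, x) ∈ S then (1 : ℝ) else 0)) :=
        Finset.prod_congr rfl (fun l _ => h2 l)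
    _ ≤ ∏ l : Fin r, (w * Real.exp ((∑ x : Fin w, (if (l, x) ∈ S then (1 : ℝ) else 0)) / w)) := by
        apply Finset.prod_le_prod
        · intro l _
          have : 0 ≤ ∑ x : Fin w, (if (l, x) ∈ S then (1 : ℝ) else 0) :=
            Finset.sum_nonneg (fun x _ => by split_ifs <;> norm_num)
          positivity
        · intro l _
          exact h3 l
    _ = (w : ℝ) ^ r * Real.exp ((S.card : ℝ) / w) := by
        rw [Finset.prod_mul_distrib, Finset.prod_const, Finset.card_univ, Fintype.card_fin,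
          ← Real.exp_sum, ← Finset.sum_div, hcard]
    _ ≤ (w : ℝ) ^ r * 3 := by
        refine mul_le_mul_of_nonneg_left ?_ (by positivity)
        have h5 : (S.card : ℝ) / w ≤ 1 := by
          rw [div_le_one hw']
          exact_mod_cast hS
        have h6 := Real.exp_le_exp.2 h5
        have h7 := Real.exp_one_lt_d9
        linarith
    _ = 3 * (w : ℝ) ^ r := by ring

theorem sel : S_SEL := by
  intro r w D U _ S hw hS hU
  by_contra hcon
  push Not at hcon
  have hw' : (0 : ℝ) < w := by exact_mod_cast hw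
  have h1 : ∑ _f : Fin r → Fin w, (2 : ℝ) ^ (D + 1) ≤
      ∑ f : Fin r → Fin w, ∑ u, (2 : ℝ) ^ (univ.filter fun l => (l, f l) ∈ S u).card := by
    refine Finset.sum_le_sum (fun f _ => ?_)
    obtain ⟨u, hu⟩ := hcon f
    refine le_trans ?_ (Finset.single_le_sum
      (f := fun u => (2 : ℝ) ^ (univ.filter fun l => (l, f l) ∈ S u).card)
      (fun _ _ => by positivity) (Finset.mem_univ u))
    exact pow_le_pow_right₀ (by norm_num) hu
  rw [Finset.sum_comm] at h1
  have h2 : ∑ u, ∑ f : Fin r → Fin w, (2 : ℝ) ^ (univ.filter fun l => (l, f l) ∈ S u).card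
      ≤ ∑ _u : U, 3 * (w : ℝ) ^ r :=
    Finset.sum_le_sum (fun u _ => moment r w hw (S u) (hS u))
  simp only [Finset.sum_const, Finset.card_univ, Fintype.card_fun, Fintype.card_fin,
    nsmul_eq_mul, Nat.cast_pow] at h1 h2
  have h3 : (3 * Fintype.card U : ℝ) < 2 ^ (D + 1) := by exact_mod_cast hU
  have h4 : (0 : ℝ) < (w : ℝ) ^ r := by positivity
  nlinarith [mul_lt_mul_of_pos_left h3 h4]

end Pool.Agent.W906.TM
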